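import Mathlib

/-!
# MP_10a600_co: every total dominating set is an ODPU-set exactly for complete graphs
-/

namespace Pool.Agent.Results.MP_10a600_co.Complete

variable {V : Type} (G : SimpleGraph V)

/-- The open `M`-distance pattern of `u`. -/
def pattern (M : Set V) (u : V) : Set ℕ := {k | ∃ v ∈ M, v ≠ u ∧ G.dist u v = k}

/-- `M` is nonempty and all vertices have the same open `M`-distance pattern. -/
def IsODPU (M : Set V) : Prop := M.Nonempty ∧ ∀ u w, pattern G M u = pattern G M w

/-- Every vertex has a neighbour in `S`. -/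
def IsTotalDom (S : Set V) : Prop := ∀ u, ∃ v ∈ S, G.Adj u v

/-- A finite connected graph has all its total dominating sets ODPU iff it is complete. -/
theorem result (V : Type) [Finite V] (G : SimpleGraph V) (hG : G.Connected) :
    (∀ S, IsTotalDom G S → IsODPU G S) ↔ G = ⊤ := by
  constructor
  · intro h
    by_contra hne
    obtain ⟨v, x, hvx, hn⟩ : ∃ v x, v ≠ x ∧ ¬ G.Adj v x := by
      by_contra hc
      push Not at hc
      exact hne (eq_top_iff.2 fun a b hab => hc a b hab)
    have : Nonempty V := ⟨v⟩
    obtain ⟨w, hw⟩ := Finite.exists_max (β := ℕ) fun y => G.dist v y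
    have h2 : 1 < G.dist v w := (hG.one_lt_dist_of_ne_of_not_adj hvx hn).trans_le (hw x)
    have hvw : v ≠ w := by
      rintro rfl
      simp at h2
    have hS : IsTotalDom G {y | G.dist v y ≠ G.dist v w} := by
      intro u
      by_cases e : u = v
      · subst e
        obtain ⟨p⟩ := hG.preconnected u w
        cases p with
        | nil => exact absurd rfl hvw
        | cons ha _ => exact ⟨_, by
            rw [Set.mem_setOf_eq, SimpleGraph.dist_eq_one_iff_adj.2 ha]
            omega, ha⟩
      · obtain ⟨p, hp⟩ := hG.exists_walk_length_eq_dist u v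
        cases p with
        | nil => exact absurd rfl e
        | cons ha q =>
          refine ⟨_, ?_, ha⟩
          have h3 := SimpleGraph.dist_le q
          have h4 := hw u
          rw [SimpleGraph.Walk.length_cons, SimpleGraph.dist_comm] at hp
          rw [SimpleGraph.dist_comm] at h3
          rw [Set.mem_setOf_eq]
          omega
    have h5 : G.dist v w ∈ pattern G {y | G.dist v y ≠ G.dist v w} w :=
      ⟨v, by
        rw [Set.mem_setOf_eq, SimpleGraph.dist_self]
        omega, hvw, SimpleGraph.dist_comm⟩
    rw [(h _ hS).2 w v] at h5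
    obtain ⟨y, hy, -, e⟩ := h5
    exact hy e
  · rintro rfl S hS
    have key : ∀ u, pattern ⊤ S u = {1} := fun u => by
      ext k
      constructor
      · rintro ⟨v, -, hv, rfl⟩
        exact SimpleGraph.dist_eq_one_iff_adj.2 hv.symm
      · rintro rfl
        obtain ⟨v, hv, ha⟩ := hS u
        exact ⟨v, hv, ha.ne.symm, SimpleGraph.dist_eq_one_iff_adj.2 ha⟩
    obtain ⟨u⟩ := hG.nonempty
    obtain ⟨v, hv, -⟩ := hS u
    exact ⟨⟨v, hv⟩, fun a b => (key a).trans (key b).symm⟩

end Pool.Agent.Results.MP_10a600_co.Complete
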